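import Pool.Agent.Lib_MP_1858fb_p.CurveSel2

/-!
A polynomial system over the coordinate ring `B` of a variety which is solvable in some field
containing `B` is solvable over `k((τ))` along an arc of the variety through a given point.
-/

namespace MP1858fbP

open MvPolynomial

universe u v w

/-- a solvable system over a field has a solution in a finite extension -/
theorem finite_solution {K : Type u} [Field K] {σ : Type v} [Finite σ]
    (S : Set (MvPolynomial σ K)) {R : Type w} [Field R] (j : K →+* R) (x : σ → R)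
    (hx : ∀ f ∈ S, eval₂ j x f = 0) :
    ∃ (L : Type (max v u)) (_ : Field L) (_ : Algebra K L), Module.Finite K L ∧
      ∃ y : σ → L, ∀ f ∈ S, aeval y f = 0 := by
  let J : Ideal (MvPolynomial σ K) := Ideal.span S
  have hJ : J ≠ ⊤ := by
    intro h
    have h1 : J ≤ RingHom.ker (eval₂Hom j x) := by
      rw [Ideal.span_le]
      intro f hf
      exact hx f hf
    have h2 : (1 : MvPolynomial σ K) ∈ RingHom.ker (eval₂Hom j x) := h1 (by rw [h]; trivial)
    have h3 : (eval₂Hom j x) 1 = 0 := h2
    rw [map_one] at h3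
    exact one_ne_zero h3
  obtain ⟨M, hM, hJM⟩ := Ideal.exists_le_maximal J hJ
  let L := MvPolynomial σ K ⧸ M
  letI : Field L := Ideal.Quotient.field M
  haveI : Algebra.FiniteType K L :=
    Algebra.FiniteType.of_surjective (Ideal.Quotient.mkₐ K M) (Ideal.Quotient.mkₐ_surjective K M)
  refine ⟨L, inferInstance, inferInstance, finite_of_finite_type_of_isJacobsonRing K L,
    fun i => Ideal.Quotient.mk M (X i), fun f hf => ?_⟩
  have h1 : aeval (fun i => Ideal.Quotient.mk M (X i)) f = Ideal.Quotient.mkₐ K M f := by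
    have : (aeval (fun i => Ideal.Quotient.mk M (X i)) : MvPolynomial σ K →ₐ[K] L) =
        Ideal.Quotient.mkₐ K M := by
      apply MvPolynomial.algHom_ext
      intro i
      rw [aeval_X]
      rfl
    rw [this]
  rw [h1]
  exact Ideal.Quotient.eq_zero_iff_mem.mpr (hJM (Ideal.subset_span hf))

/-- clearing denominators in the value of a polynomial -/
theorem clear_eval {B F σ : Type*} [CommRing B] [Field F] [Fintype σ] (h : B →+* F) (β : B)
    (hβ : h β ≠ 0) (w : σ → F) (f : MvPolynomial σ B) :
    h β ^ f.totalDegree * eval₂ h (fun i => w i / h β) f =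
      ∑ d ∈ f.support, h (f.coeff d) * h β ^ (f.totalDegree - ∑ i, d i) * ∏ i, w i ^ d i := by
  rw [eval₂_eq', Finset.mul_sum]
  refine Finset.sum_congr rfl fun d hd => ?_
  have h1 : ∑ i, d i ≤ f.totalDegree := by
    have := le_totalDegree hd
    rwa [Finsupp.sum_fintype _ _ (fun _ => rfl)] at this
  have h2 : ∏ i, (w i / h β) ^ d i = (∏ i, w i ^ d i) / h β ^ (∑ i, d i) := by
    rw [← Finset.prod_pow_eq_pow_sum, ← Finset.prod_div_distrib]
    exact Finset.prod_congr rfl fun i _ => div_pow _ _ _
  have h3 : h β ^ f.totalDegree = h β ^ (f.totalDegree - ∑ i, d i) * h β ^ (∑ i, d i) := by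
    rw [← pow_add]; congr 1; omega
  rw [h2, h3]
  have h4 : h β ^ (∑ i, d i) ≠ 0 := pow_ne_zero _ hβ
  generalize h β ^ (∑ i, d i) = b at h4 ⊢
  generalize h β ^ (f.totalDegree - ∑ i, d i) = c
  generalize ∏ i, w i ^ d i = e
  field_simp

/-- the step from a solution in a field which is integral up to a denominator -/
theorem arc_of_finite {k B L σ : Type*} [Field k] [IsAlgClosed k] [CommRing B] [IsDomain B]
    [Algebra k B] [Algebra.FiniteType k B] [Finite σ] [Field L] [Algebra B L]
    (m : Ideal B) [hm : m.IsMaximal] (S : Set (MvPolynomial σ B))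
    (hBL : Function.Injective (algebraMap B L)) (y : σ → L) (hy : ∀ f ∈ S, aeval y f = 0)
    (β : B) (hβ0 : β ≠ 0) (hβi : ∀ i, IsIntegral B (algebraMap B L β * y i)) (D : B)
    (hD : D ≠ 0) :
    ∃ (φ : B →ₐ[k] PowerSeries k) (y : σ → LaurentSeries k),
      (∀ b ∈ m, PowerSeries.constantCoeff (φ b) = 0) ∧ φ D ≠ 0 ∧
      ∀ f ∈ S, eval₂ ((algebraMap (PowerSeries k) (LaurentSeries k)).comp φ.toRingHom) y f = 0 := by
  classical
  haveI := Fintype.ofFinite σ
  let Cs : Subalgebra B L := Algebra.adjoin B (Set.range fun i => algebraMap B L β * y i)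
  haveI : Algebra.IsIntegral B Cs := by
    apply Algebra.IsIntegral.adjoin
    rintro _ ⟨i, rfl⟩
    exact hβi i
  haveI : Algebra.FiniteType B Cs := by
    apply Subalgebra.fg_iff_finiteType _ |>.mp
    exact ⟨(Set.finite_range _).toFinset, by rw [Set.Finite.coe_toFinset]⟩
  letI : Algebra k Cs := ((algebraMap B Cs).comp (algebraMap k B)).toAlgebra
  haveI : IsScalarTower k B Cs := IsScalarTower.of_algebraMap_eq fun _ => rfl
  haveI : Algebra.FiniteType k Cs := Algebra.FiniteType.trans (S := B) inferInstance inferInstance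
  have hBC : Function.Injective (algebraMap B Cs) := by
    intro a b h
    apply hBL
    exact congrArg Subtype.val h
  -- a maximal ideal over `m`
  obtain ⟨q, hq, hqm⟩ := Ideal.exists_ideal_over_maximal_of_isIntegral (S := Cs) m (by
    rw [(RingHom.injective_iff_ker_eq_bot _).mp hBC]
    exact bot_le)
  have hDβ : algebraMap B Cs (D * β) ≠ 0 := by
    intro h
    exact (mul_ne_zero hD hβ0) (hBC (by rw [map_zero]; exact h))
  obtain ⟨ψ, hψ1, hψ2⟩ := curve_selection (k := k) q (algebraMap B Cs (D * β)) hDβ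
  let φ : B →ₐ[k] PowerSeries k := ψ.comp (IsScalarTower.toAlgHom k B Cs)
  have hφ : ∀ b, φ b = ψ (algebraMap B Cs b) := fun b => rfl
  have hφDβ : φ (D * β) ≠ 0 := hψ2
  rw [map_mul] at hφDβ
  let inc : PowerSeries k →+* LaurentSeries k := algebraMap (PowerSeries k) (LaurentSeries k)
  have hinc : Function.Injective inc := IsFractionRing.injective (PowerSeries k) (LaurentSeries k)
  have hβne : inc (φ β) ≠ 0 := by
    intro h
    apply right_ne_zero_of_mul hφDβ
    exact hinc (by rw [map_zero]; exact h)
  let yC : σ → Cs := fun i => ⟨algebraMap B L β * y i, Algebra.subset_adjoin ⟨i, rfl⟩⟩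
  refine ⟨φ, fun i => inc (ψ (yC i)) / inc (φ β), fun b hb => ?_, left_ne_zero_of_mul hφDβ,
    fun f hf => ?_⟩
  · rw [hφ]
    apply hψ1
    have : b ∈ q.comap (algebraMap B Cs) := by rw [hqm]; exact hb
    exact this
  · have hβL : algebraMap B L β ≠ 0 := by
      intro h
      exact hβ0 (hBL (by rw [map_zero]; exact h))
    have h1 := clear_eval (algebraMap B L) β hβL (fun i => algebraMap B L β * y i) f
    have h2 : (fun i => algebraMap B L β * y i / algebraMap B L β) = y := by
      ext i
      exact mul_div_cancel_left₀ _ hβL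
    have h2' : eval₂ (algebraMap B L) y f = 0 := hy f hf
    rw [h2, h2', mul_zero] at h1
    -- the same sum in `Cs`
    let Pc : Cs := ∑ d ∈ f.support, algebraMap B Cs (f.coeff d) *
      algebraMap B Cs β ^ (f.totalDegree - ∑ i, d i) * ∏ i, yC i ^ d i
    have hval : Cs.val Pc = ∑ d ∈ f.support, algebraMap B L (f.coeff d) *
        algebraMap B L β ^ (f.totalDegree - ∑ i, d i) *
          ∏ i, (algebraMap B L β * y i) ^ d i := by
      simp only [Pc, map_sum, map_mul, map_pow, map_prod]
      rfl
    have hPc : Pc = 0 := by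
      apply Subtype.ext
      change Cs.val Pc = 0
      rw [hval]
      exact h1.symm
    have h3 := clear_eval (inc.comp φ.toRingHom) β hβne (fun i => inc (ψ (yC i))) f
    have h4 : inc (ψ Pc) = ∑ d ∈ f.support, (inc.comp φ.toRingHom) (f.coeff d) *
        (inc.comp φ.toRingHom) β ^ (f.totalDegree - ∑ i, d i) *
          ∏ i, (inc (ψ (yC i))) ^ d i := by
      simp only [Pc, map_sum, map_mul, map_pow, map_prod]
      rfl
    rw [← h4, hPc, map_zero, map_zero] at h3
    exact (mul_eq_zero.mp h3).resolve_left (pow_ne_zero _ hβne)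

/-- **solutions along an arc** -/
theorem arc_solution {k B R σ : Type*} [Field k] [IsAlgClosed k] [CommRing B] [IsDomain B]
    [Algebra k B] [Algebra.FiniteType k B] [Finite σ] [Field R] (m : Ideal B) [hm : m.IsMaximal]
    (S : Set (MvPolynomial σ B)) (j : B →+* R) (hj : Function.Injective j) (x : σ → R)
    (hx : ∀ f ∈ S, eval₂ j x f = 0) (D : B) (hD : D ≠ 0) :
    ∃ (φ : B →ₐ[k] PowerSeries k) (y : σ → LaurentSeries k),
      (∀ b ∈ m, PowerSeries.constantCoeff (φ b) = 0) ∧ φ D ≠ 0 ∧
      ∀ f ∈ S, eval₂ ((algebraMap (PowerSeries k) (LaurentSeries k)).comp φ.toRingHom) y f = 0 := by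
  classical
  haveI := Fintype.ofFinite σ
  -- a solution in a finite extension of the fraction field
  let K := FractionRing B
  let S' : Set (MvPolynomial σ K) := (MvPolynomial.map (algebraMap B K)) '' S
  let j' : K →+* R := IsFractionRing.lift hj
  have hj' : ∀ b, j' (algebraMap B K b) = j b := fun b => IsFractionRing.lift_algebraMap hj b
  obtain ⟨L, _, _, hL, y, hy⟩ := finite_solution S' j' x (by
    rintro _ ⟨f, hf, rfl⟩
    rw [eval₂_map]
    have : j'.comp (algebraMap B K) = j := RingHom.ext hj'
    rw [this]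
    exact hx f hf)
  haveI : Algebra.IsAlgebraic K L := Algebra.IsAlgebraic.of_finite K L
  letI : Algebra B L := ((algebraMap K L).comp (algebraMap B K)).toAlgebra
  haveI : IsScalarTower B K L := IsScalarTower.of_algebraMap_eq fun _ => rfl
  have hBL : Function.Injective (algebraMap B L) :=
    (algebraMap K L).injective.comp (IsFractionRing.injective B K)
  have hy' : ∀ f ∈ S, aeval y f = 0 := by
    intro f hf
    have h1 := hy _ ⟨f, hf, rfl⟩
    rw [aeval_map_algebraMap] at h1
    exact h1
  -- common denominator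
  have hint : ∀ i, ∃ b : B, b ≠ 0 ∧ IsIntegral B (algebraMap B L b * y i) := by
    intro i
    have h1 : IsAlgebraic K (y i) := Algebra.IsAlgebraic.isAlgebraic (y i)
    have h2 : IsAlgebraic B (y i) := (IsFractionRing.isAlgebraic_iff B K L).mpr h1
    obtain ⟨b, hb, h3⟩ := h2.exists_integral_multiple
    exact ⟨b, hb, by rwa [← Algebra.smul_def]⟩
  choose b hb0 hbi using hint
  let β : B := ∏ i, b i
  have hβ0 : β ≠ 0 := Finset.prod_ne_zero_iff.mpr fun i _ => hb0 i
  have hβi : ∀ i, IsIntegral B (algebraMap B L β * y i) := by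
    intro i
    have h1 : β = (∏ l ∈ Finset.univ.erase i, b l) * b i := by
      rw [mul_comm]
      exact (Finset.mul_prod_erase _ _ (Finset.mem_univ i)).symm
    rw [h1, map_mul, mul_assoc]
    exact isIntegral_algebraMap.mul (hbi i)
  exact arc_of_finite (k := k) m S hBL y hy' β hβ0 hβi D hD

end MP1858fbP
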