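import Pool.Agent.Lib_MP_1858fb_p.ValDisc

/-!
Elements of the fraction field of a domain finite over `k[t]` have bounded degree over `k(t)`.
-/

namespace MP1858fbP

open Polynomial

theorem not_indep {k A : Type*} [Field k] [CommRing A] [IsDomain A] [Algebra k A]
    (t : A) (hfin : (aeval (R := k) t).toRingHom.Finite) :
    ∃ N : ℕ, ∀ f : Fin (N + 1) → A, ∃ g : Fin (N + 1) → k[X],
      ∑ i, aeval t (g i) * f i = 0 ∧ ∃ i, g i ≠ 0 := by
  letI alg : Algebra k[X] A := (aeval (R := k) t).toRingHom.toAlgebra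
  haveI : Module.Finite k[X] A := hfin
  refine ⟨Module.finrank k[X] A, fun f => ?_⟩
  have hf : ¬ LinearIndependent k[X] f := by
    intro hf
    have := hf.fintype_card_le_finrank
    rw [Fintype.card_fin] at this
    omega
  rw [Fintype.not_linearIndependent_iff] at hf
  exact hf

theorem ev2_sum {k K : Type*} [Field k] [Field K] [Algebra k K] {n : ℕ}
    (g : Fin n → k[X]) (t z : K) :
    ev2 t z (∑ i : Fin n, C (g i) * X ^ (i : ℕ)) = ∑ i : Fin n, aeval t (g i) * z ^ (i : ℕ) := by
  rw [ev2, Polynomial.map_sum, eval_finset_sum]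
  refine Finset.sum_congr rfl fun i _ => ?_
  rw [Polynomial.map_mul, Polynomial.map_C, Polynomial.map_pow, Polynomial.map_X, eval_mul,
    eval_C, eval_pow, eval_X]
  rfl

theorem coeff_sum_C {k : Type*} [Field k] {n : ℕ} (g : Fin n → k[X]) (i₀ : Fin n) :
    (∑ i : Fin n, C (g i) * X ^ (i : ℕ) : k[X][X]).coeff i₀ = g i₀ := by
  rw [finsetSum_coeff]
  simp only [coeff_C_mul, coeff_X_pow]
  rw [Finset.sum_eq_single i₀]
  · simp
  · intro j _ hj
    rw [if_neg, mul_zero]
    intro h3
    exact hj (Fin.ext h3.symm)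
  · intro h3; exact absurd (Finset.mem_univ _) h3

theorem bdDeg {k A K : Type*} [Field k] [CommRing A] [IsDomain A] [Algebra k A]
    [Field K] [Algebra A K] [IsFractionRing A K] [Algebra k K] [IsScalarTower k A K]
    (t : A) (hfin : (aeval (R := k) t).toRingHom.Finite) :
    ∃ N : ℕ, ∀ z : K, ∃ P : k[X][X], P ≠ 0 ∧ P.natDegree ≤ N ∧
      ev2 (algebraMap A K t) z P = 0 := by
  obtain ⟨N, hN⟩ := not_indep (k := k) t hfin
  have hinj : Function.Injective (algebraMap A K) := IsFractionRing.injective A K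
  refine ⟨N, fun z => ?_⟩
  obtain ⟨a, b, hb, rfl⟩ := IsFractionRing.div_surjective (A := A) z
  have hb0 : algebraMap A K b ≠ 0 := by
    intro h
    exact nonZeroDivisors.ne_zero hb (hinj (by rw [map_zero]; exact h))
  obtain ⟨g, hg, i₀, hi₀⟩ := hN (fun i : Fin (N + 1) => a ^ (i : ℕ) * b ^ (N - i : ℕ))
  refine ⟨∑ i : Fin (N + 1), C (g i) * X ^ (i : ℕ), ?_, ?_, ?_⟩
  · intro h
    apply hi₀
    rw [← coeff_sum_C g i₀, h, coeff_zero]
  · apply natDegree_sum_le_of_forall_le
    intro i _
    exact (natDegree_C_mul_X_pow_le _ _).trans (by have := i.2; omega)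
  · rw [ev2_sum]
    have h6 := congrArg (algebraMap A K) hg
    rw [map_sum, map_zero] at h6
    have h5 : algebraMap A K b ^ N * ∑ i : Fin (N + 1), aeval (algebraMap A K t) (g i) *
        (algebraMap A K a / algebraMap A K b) ^ (i : ℕ) = 0 := by
      rw [Finset.mul_sum, ← h6]
      refine Finset.sum_congr rfl fun i _ => ?_
      have h8 : aeval (algebraMap A K t) (g i) = algebraMap A K (aeval t (g i)) :=
        aeval_algebraMap_apply K t _
      rw [map_mul, map_mul, map_pow, map_pow, h8, div_pow]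
      have h9 : algebraMap A K b ^ N = algebraMap A K b ^ (N - i : ℕ) *
          algebraMap A K b ^ (i : ℕ) := by
        rw [← pow_add]; congr 1; have := i.2; omega
      rw [h9]
      have h10 : algebraMap A K b ^ (i : ℕ) ≠ 0 := pow_ne_zero _ hb0
      generalize algebraMap A K b ^ (i : ℕ) = B at h10 ⊢
      generalize algebraMap A K (aeval t (g i)) = G
      generalize algebraMap A K a ^ (i : ℕ) = A'
      generalize algebraMap A K b ^ (N - i : ℕ) = B'
      field_simp
    exact (mul_eq_zero.mp h5).resolve_left (pow_ne_zero _ hb0)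

end MP1858fbP
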