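import Pool.Agent.Lib_MP_1858fb_p.Digits
import Pool.Agent.Lib_MP_1858fb_p.BdDeg

/-!
Curve selection over an algebraically closed field of any characteristic.
-/

namespace MP1858fbP

open Polynomial

/-- a valuation ring of the fraction field centred at a given ideal -/
theorem exists_val {A K : Type*} [CommRing A] [IsDomain A] [Field K] [Algebra A K]
    [IsFractionRing A K] (q : Ideal A) (hq : q ≠ ⊤) :
    ∃ V : ValuationSubring K, (∀ x : A, algebraMap A K x ∈ V) ∧
      ∀ x ∈ q, V.valuation (algebraMap A K x) < 1 := by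
  have hinj : Function.Injective (algebraMap A K) := IsFractionRing.injective A K
  let e : A →+* (algebraMap A K).range := (algebraMap A K).rangeRestrict
  have he : Function.Bijective e :=
    ⟨fun x y h => hinj (congrArg Subtype.val h), (algebraMap A K).rangeRestrict_surjective⟩
  have hI : q.map e ≠ ⊤ := by
    intro h
    apply hq
    have h2 : (q.map e).comap e = ⊤ := by rw [h, Ideal.comap_top]
    rwa [Ideal.comap_map_of_bijective e he] at h2
  obtain ⟨V, hV1, hV2⟩ := Ideal.image_subset_nonunits_valuationSubring (q.map e) hI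
  refine ⟨V, fun x => hV1 ⟨x, rfl⟩, fun x hx => ?_⟩
  have : algebraMap A K x ∈ V.nonunits := hV2 ⟨e x, Ideal.mem_map_of_mem _ hx, rfl⟩
  exact (V.mem_nonunits_iff).mp this

/-- expansion of the elements of a discrete valuation ring with residue field `k` -/
theorem expand {k A K : Type*} [Field k] [CommRing A] [IsDomain A] [Algebra k A]
    [Field K] [Algebra A K] [IsFractionRing A K] [Algebra k K] [IsScalarTower k A K]
    (V : ValuationSubring K) (hAV : ∀ x : A, algebraMap A K x ∈ V) (q : Ideal A)
    (hqV : ∀ x ∈ q, V.valuation (algebraMap A K x) < 1)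
    (hk : ∀ c : k, c ≠ 0 → V.valuation (algebraMap k K c) = 1)
    (hres : ∀ z : K, V.valuation z ≤ 1 → ∃ c : k, V.valuation (z - algebraMap k K c) < 1)
    (τ : K) (hτ0 : τ ≠ 0) (hτ1 : V.valuation τ < 1)
    (hτmax : ∀ z, V.valuation z < 1 → V.valuation z ≤ V.valuation τ)
    (hτint : ∀ z, z ≠ 0 → ∃ m : ℕ, ¬ (V.valuation z ≤ V.valuation τ ^ m)) :
    ∃ φ : A →ₐ[k] PowerSeries k, (∀ x ∈ q, PowerSeries.constantCoeff (φ x) = 0) ∧
      ∀ x, φ x = 0 → x = 0 := by
  have hinj : Function.Injective (algebraMap A K) := IsFractionRing.injective A K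
  have hkAK : ∀ c : k, algebraMap k K c = algebraMap A K (algebraMap k A c) := fun c =>
    IsScalarTower.algebraMap_apply k A K c
  have hkV : ∀ c : k, algebraMap k K c ∈ V := fun c => by
    rw [hkAK]
    exact hAV (algebraMap k A c)
  let j : k →+* V := (algebraMap k K).codRestrict V.toSubring hkV
  letI : Algebra k V := j.toAlgebra
  have hmapV : ∀ c : k, ((algebraMap k V c : V) : K) = algebraMap k K c := fun c => rfl
  let τV : V := ⟨τ, (V.valuation_le_one_iff τ).mp hτ1.le⟩
  have hτV : τV ≠ 0 := by
    intro h
    exact hτ0 (congrArg Subtype.val h)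
  obtain ⟨φ, hφ1, hφ2⟩ := digits (k := k) (A := V) τV hτV
    (by
      intro z
      obtain ⟨c, hc⟩ := hres (z : K) (V.valuation_le_one z)
      have h1 : V.valuation (((z : K) - algebraMap k K c) / τ) ≤ 1 := by
        rw [map_div₀]
        exact div_le_one_of_le₀ (hτmax _ hc) zero_le
      refine ⟨c, ⟨((z : K) - algebraMap k K c) / τ, (V.valuation_le_one_iff _).mp h1⟩, ?_⟩
      apply Subtype.ext
      change (z : K) = algebraMap k K c + τ * (((z : K) - algebraMap k K c) / τ)
      rw [mul_div_cancel₀ _ hτ0]
      ring)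
    (by
      intro c w h
      by_contra hc
      have h1 := hk c hc
      have h2 : algebraMap k K c = τ * w := congrArg Subtype.val h
      have h3 : V.valuation (τ * (w : K)) < 1 := by
        rw [map_mul]
        calc V.valuation τ * V.valuation (w : K) ≤ V.valuation τ * 1 :=
              mul_le_mul_right (V.valuation_le_one w) _
          _ = V.valuation τ := mul_one _
          _ < 1 := hτ1
      rw [← h2, h1] at h3
      exact absurd h3 (lt_irrefl _))
  let ι : A →ₐ[k] V :=
    { (algebraMap A K).codRestrict V.toSubring hAV with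
      commutes' := fun c => by
        apply Subtype.ext
        exact (hkAK c).symm }
  refine ⟨φ.comp ι, ?_, ?_⟩
  · intro x hx
    have h1 : V.valuation (algebraMap A K x / τ) ≤ 1 := by
      rw [map_div₀]
      exact div_le_one_of_le₀ (hτmax _ (hqV x hx)) zero_le
    have h2 : ι x = τV * ⟨algebraMap A K x / τ, (V.valuation_le_one_iff _).mp h1⟩ := by
      apply Subtype.ext
      change algebraMap A K x = τ * (algebraMap A K x / τ)
      rw [mul_div_cancel₀ _ hτ0]
    rw [AlgHom.comp_apply, h2]
    exact hφ1 _
  · intro x hx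
    by_contra hx0
    have h1 : algebraMap A K x ≠ 0 := by
      intro h
      exact hx0 (hinj (by rw [map_zero]; exact h))
    obtain ⟨m, hm⟩ := hτint _ h1
    apply hm
    obtain ⟨w, hw⟩ := hφ2 (ι x) hx m
    have h2 : algebraMap A K x = τ ^ m * (w : K) := congrArg Subtype.val hw
    rw [h2, map_mul, map_pow]
    calc V.valuation τ ^ m * V.valuation (w : K) ≤ V.valuation τ ^ m * 1 :=
          mul_le_mul_right (V.valuation_le_one w) _
      _ = V.valuation τ ^ m := mul_one _

/-- the one-dimensional case: a domain finite over `k[t]`, a proper ideal containing `t` -/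
theorem curve_one {k A : Type*} [Field k] [IsAlgClosed k] [CommRing A] [IsDomain A] [Algebra k A]
    (t : A) (hfin : (aeval (R := k) t).toRingHom.Finite) (q : Ideal A) (hq : q ≠ ⊤) (htq : t ∈ q)
    (ht0 : t ≠ 0) :
    ∃ φ : A →ₐ[k] PowerSeries k, (∀ x ∈ q, PowerSeries.constantCoeff (φ x) = 0) ∧
      ∀ x, φ x = 0 → x = 0 := by
  have hinj : Function.Injective (algebraMap A (FractionRing A)) :=
    IsFractionRing.injective A (FractionRing A)
  have hkAK : ∀ c : k, algebraMap k (FractionRing A) c =
      algebraMap A (FractionRing A) (algebraMap k A c) := fun c =>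
    IsScalarTower.algebraMap_apply k A (FractionRing A) c
  obtain ⟨V, hAV, hqV⟩ := exists_val (K := FractionRing A) q hq
  have ht' := hqV t htq
  have ht0' : algebraMap A (FractionRing A) t ≠ 0 := by
    intro h
    exact ht0 (hinj (by rw [map_zero]; exact h))
  have hk : ∀ c : k, c ≠ 0 → V.valuation (algebraMap k (FractionRing A) c) = 1 := by
    intro c hc
    have h1 : ∀ d : k, V.valuation (algebraMap k (FractionRing A) d) ≤ 1 := fun d => by
      rw [hkAK]
      exact (V.valuation_le_one_iff _).mpr (hAV (algebraMap k A d))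
    apply le_antisymm (h1 c)
    have h2 : V.valuation (algebraMap k (FractionRing A) c) *
        V.valuation (algebraMap k (FractionRing A) c⁻¹) = 1 := by
      rw [← map_mul, ← map_mul, mul_inv_cancel₀ hc, map_one, map_one]
    by_contra hcon
    push Not at hcon
    have h3 : V.valuation (algebraMap k (FractionRing A) c) *
        V.valuation (algebraMap k (FractionRing A) c⁻¹) < 1 := by
      calc V.valuation (algebraMap k (FractionRing A) c) *
            V.valuation (algebraMap k (FractionRing A) c⁻¹)
          ≤ V.valuation (algebraMap k (FractionRing A) c) * 1 := mul_le_mul_right (h1 _) _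
        _ = V.valuation (algebraMap k (FractionRing A) c) := mul_one _
        _ < 1 := hcon
    exact absurd h2 h3.ne
  obtain ⟨N, hN⟩ := bdDeg (K := FractionRing A) t hfin
  obtain ⟨τ, hτ0, hτ1, hτmax, hτint⟩ := uniformizer V.valuation
    (algebraMap A (FractionRing A) t) hk ht' ht0' N hN
  refine expand V hAV q hqV hk (fun z hz => ?_) τ hτ0 hτ1 hτmax hτint
  obtain ⟨P, hP0, _, hPz⟩ := hN z
  exact residue V.valuation _ hk ht' ht0' z hz P hP0 hPz

end MP1858fbP
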