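import Pool.Agent.Lib_MP_1858fb_p.CurveSel

/-!
Curve selection over an algebraically closed field of any characteristic: arbitrary dimension.
-/

namespace MP1858fbP

open MvPolynomial

/-- the homomorphism to the residue field -/
theorem point_hom {k A : Type*} [Field k] [IsAlgClosed k] [CommRing A] [Algebra k A]
    [Algebra.FiniteType k A] (q : Ideal A) [q.IsMaximal] :
    ∃ ψ : A →ₐ[k] k, ∀ x ∈ q, ψ x = 0 := by
  letI : Field (A ⧸ q) := Ideal.Quotient.field q
  haveI : Algebra.FiniteType k (A ⧸ q) :=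
    Algebra.FiniteType.of_surjective (Ideal.Quotient.mkₐ k q) (Ideal.Quotient.mkₐ_surjective k q)
  haveI : Module.Finite k (A ⧸ q) := finite_of_finite_type_of_isJacobsonRing k (A ⧸ q)
  have hb : Function.Bijective (algebraMap k (A ⧸ q)) :=
    IsAlgClosed.algebraMap_bijective_of_isIntegral
  let e : k ≃ₐ[k] (A ⧸ q) := AlgEquiv.ofBijective (Algebra.ofId k (A ⧸ q)) hb
  refine ⟨(e.symm : (A ⧸ q) →ₐ[k] k).comp (Ideal.Quotient.mkₐ k q), fun x hx => ?_⟩
  rw [AlgHom.comp_apply]
  have : Ideal.Quotient.mkₐ k q x = 0 := Ideal.Quotient.eq_zero_iff_mem.mpr hx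
  rw [this, map_zero]

/-- **curve selection** -/
theorem curve_selection {k A : Type*} [Field k] [IsAlgClosed k] [CommRing A] [IsDomain A]
    [Algebra k A] [Algebra.FiniteType k A] (q : Ideal A) [hqm : q.IsMaximal] (D : A)
    (hD : D ≠ 0) :
    ∃ φ : A →ₐ[k] PowerSeries k, (∀ x ∈ q, PowerSeries.constantCoeff (φ x) = 0) ∧ φ D ≠ 0 := by
  classical
  obtain ⟨ψ, hψ⟩ := point_hom (k := k) q
  by_cases hDq : ψ D ≠ 0
  · -- constant map
    refine ⟨(Algebra.ofId k (PowerSeries k)).comp ψ, fun x hx => ?_, ?_⟩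
    · rw [AlgHom.comp_apply, hψ x hx, map_zero, map_zero]
    · rw [AlgHom.comp_apply]
      intro h
      apply hDq
      have := congrArg PowerSeries.constantCoeff h
      simpa [Algebra.ofId_apply, PowerSeries.algebraMap_apply] using this
  push Not at hDq
  -- Noether normalization
  obtain ⟨s, g, hg, hgfin⟩ := exists_finite_inj_algHom_of_fg k A
  letI : Algebra (MvPolynomial (Fin s) k) A := g.toRingHom.toAlgebra
  have hgmap : ∀ p, algebraMap (MvPolynomial (Fin s) k) A p = g p := fun _ => rfl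
  haveI : Module.Finite (MvPolynomial (Fin s) k) A := hgfin
  haveI : Algebra.IsIntegral (MvPolynomial (Fin s) k) A := inferInstance
  haveI : FaithfulSMul (MvPolynomial (Fin s) k) A :=
    (faithfulSMul_iff_algebraMap_injective _ _).mpr hg
  -- a nonzero element of the polynomial ring divisible by `D`
  obtain ⟨D', hD', hDD'⟩ : ∃ D' : MvPolynomial (Fin s) k, D' ≠ 0 ∧ D ∣ g D' := by
    have h1 : (Ideal.span {D}).comap (algebraMap (MvPolynomial (Fin s) k) A) ≠ ⊥ :=
      Ideal.comap_ne_bot_of_integral_mem hD (Ideal.mem_span_singleton_self D)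
        (Algebra.IsIntegral.isIntegral D)
    obtain ⟨D', hD'1, hD'2⟩ := (Submodule.ne_bot_iff _).mp h1
    exact ⟨D', hD'2, Ideal.mem_span_singleton.mp hD'1⟩
  -- the points
  let p : Fin s → k := fun i => ψ (g (X i))
  have hψg : ∀ f, ψ (g f) = eval p f := by
    intro f
    have : (ψ.comp g) = aeval p := by
      apply MvPolynomial.algHom_ext
      intro i
      rw [AlgHom.comp_apply, aeval_X]
    calc ψ (g f) = (ψ.comp g) f := rfl
      _ = aeval p f := by rw [this]
      _ = eval p f := by rw [aeval_eq_eval]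
  obtain ⟨p', hp'⟩ : ∃ p' : Fin s → k, eval p' D' ≠ 0 := by
    by_contra hcon
    push Not at hcon
    exact hD' (MvPolynomial.funext (fun x => by rw [hcon x, map_zero]))
  have hpD : eval p D' = 0 := by
    obtain ⟨E, hE⟩ := hDD'
    rw [← hψg, hE, map_mul, hDq, zero_mul]
  -- the line
  let ℓ : MvPolynomial (Fin s) k →ₐ[k] Polynomial k :=
    aeval (fun i => Polynomial.C (p i) + Polynomial.C (p' i - p i) * Polynomial.X)
  have hℓ0 : ∀ f, (ℓ f).eval 0 = eval p f := by
    intro f
    have : (Polynomial.aeval (0 : k)).comp ℓ = aeval p := by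
      apply MvPolynomial.algHom_ext
      intro i
      simp [ℓ]
    have h2 := congrArg (fun h => h f) this
    simpa [aeval_eq_eval] using h2
  have hℓ1 : ∀ f, (ℓ f).eval 1 = eval p' f := by
    intro f
    have : (Polynomial.aeval (1 : k)).comp ℓ = aeval p' := by
      apply MvPolynomial.algHom_ext
      intro i
      simp [ℓ]
    have h2 := congrArg (fun h => h f) this
    simpa [aeval_eq_eval] using h2
  obtain ⟨i₀, hi₀⟩ : ∃ i, p' i ≠ p i := by
    by_contra hcon
    push Not at hcon
    have : p' = p := funext hcon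
    rw [this] at hp'
    exact hp' hpD
  let T : MvPolynomial (Fin s) k := C (p' i₀ - p i₀)⁻¹ * (X i₀ - C (p i₀))
  have hT : ℓ T = Polynomial.X := by
    have h1 : p' i₀ - p i₀ ≠ 0 := sub_ne_zero.mpr hi₀
    have h2 : ℓ T = Polynomial.C (p' i₀ - p i₀)⁻¹ *
        (Polynomial.C (p i₀) + Polynomial.C (p' i₀ - p i₀) * Polynomial.X -
          Polynomial.C (p i₀)) := by
      simp only [T, ℓ, map_mul, map_sub, aeval_X, algHom_C, Polynomial.algebraMap_eq]
    rw [h2]
    have h3 : Polynomial.C (p' i₀ - p i₀)⁻¹ * Polynomial.C (p' i₀ - p i₀) = 1 := by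
      rw [← Polynomial.C_mul, inv_mul_cancel₀ h1, Polynomial.C_1]
    linear_combination Polynomial.X * h3
  -- going down
  let PL : Ideal (MvPolynomial (Fin s) k) := RingHom.ker ℓ
  haveI : PL.IsPrime := RingHom.ker_isPrime _
  haveI : q.IsPrime := hqm.isPrime
  have hle : PL ≤ q.under (MvPolynomial (Fin s) k) := by
    intro f hf
    have hf' : ℓ f = 0 := hf
    have h1 : eval p f = 0 := by rw [← hℓ0, hf', Polynomial.eval_zero]
    change g f ∈ q
    -- `q` is the kernel of `ψ`
    have hker : q = RingHom.ker ψ := by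
      apply hqm.eq_of_le (RingHom.ker_ne_top _)
      intro x hx
      exact hψ x hx
    rw [hker]
    change ψ (g f) = 0
    rw [hψg, h1]
  haveI : (q.under (MvPolynomial (Fin s) k)).IsPrime := inferInstance
  obtain ⟨𝔭, h𝔭q, h𝔭p, h𝔭L⟩ := Ideal.exists_ideal_le_liesOver_of_le
    (p := PL) (q := q.under (MvPolynomial (Fin s) k)) q hle
  have hker : q = RingHom.ker ψ := by
    apply hqm.eq_of_le (RingHom.ker_ne_top _)
    intro x hx
    exact hψ x hx
  have h𝔭mem : ∀ f, g f ∈ 𝔭 ↔ ℓ f = 0 := by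
    intro f
    have h1 : PL = 𝔭.under (MvPolynomial (Fin s) k) := h𝔭L.over
    constructor
    · intro h
      have h2 : f ∈ PL := by rw [h1]; exact h
      exact h2
    · intro h
      have h2 : f ∈ PL := h
      rw [h1] at h2
      exact h2
  let t : A ⧸ 𝔭 := Ideal.Quotient.mk 𝔭 (g T)
  have hcomp : (Ideal.Quotient.mkₐ k 𝔭).comp g = (Polynomial.aeval (R := k) t).comp ℓ := by
    apply MvPolynomial.algHom_ext
    intro i
    have h1 : ℓ (X i - C (p i) - C (p' i - p i) * T) = 0 := by
      have h2 : ℓ (X i) = Polynomial.C (p i) + Polynomial.C (p' i - p i) * Polynomial.X := by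
        simp only [ℓ, aeval_X]
      have h3 : ∀ c : k, ℓ (C c) = Polynomial.C c := fun c => by
        simp only [ℓ, algHom_C, Polynomial.algebraMap_eq]
      rw [map_sub, map_sub, map_mul, hT, h2, h3, h3]
      ring
    have h4 := (h𝔭mem _).mpr h1
    have h5 : Ideal.Quotient.mk 𝔭 (g (X i - C (p i) - C (p' i - p i) * T)) = 0 :=
      Ideal.Quotient.eq_zero_iff_mem.mpr h4
    have hgC : ∀ c : k, g (C c) = algebraMap k A c := fun c => by
      rw [algHom_C]
    have hmk : ∀ c : k, Ideal.Quotient.mk 𝔭 (algebraMap k A c) = algebraMap k (A ⧸ 𝔭) c :=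
      fun c => rfl
    simp only [map_sub, map_mul, hgC, hmk] at h5
    rw [AlgHom.comp_apply, AlgHom.comp_apply]
    have h6 : ℓ (X i) = Polynomial.C (p i) + Polynomial.C (p' i - p i) * Polynomial.X := by
      simp only [ℓ, aeval_X]
    rw [h6, map_add, map_mul, Polynomial.aeval_C, Polynomial.aeval_C, Polynomial.aeval_X, map_sub]
    change Ideal.Quotient.mk 𝔭 (g (X i)) = _
    linear_combination h5
  have hfin : (Polynomial.aeval (R := k) t).toRingHom.Finite := by
    have h1 : ((Polynomial.aeval (R := k) t).toRingHom.comp ℓ.toRingHom).Finite := by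
      have h2 : (Polynomial.aeval (R := k) t).toRingHom.comp ℓ.toRingHom =
          (Ideal.Quotient.mkₐ k 𝔭).toRingHom.comp g.toRingHom := by
        refine RingHom.ext fun x => ?_
        exact (DFunLike.congr_fun hcomp x).symm
      rw [h2]
      exact RingHom.Finite.comp (RingHom.Finite.of_surjective _
        (Ideal.Quotient.mkₐ_surjective k 𝔭)) hgfin
    exact RingHom.Finite.of_comp_finite h1
  have hgT : g T ∈ q := by
    rw [hker]
    change ψ (g T) = 0
    rw [hψg]
    simp [T]
  obtain ⟨φ1, hφ1, hφ1'⟩ := curve_one (k := k) t hfin (q.map (Ideal.Quotient.mk 𝔭))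
    (by
      intro h
      have h1 : (q.map (Ideal.Quotient.mk 𝔭)).comap (Ideal.Quotient.mk 𝔭) = ⊤ := by
        rw [h, Ideal.comap_top]
      rw [Ideal.comap_map_of_surjective _ Ideal.Quotient.mk_surjective] at h1
      have h2 : (⊥ : Ideal (A ⧸ 𝔭)).comap (Ideal.Quotient.mk 𝔭) ≤ q := by
        intro x hx
        apply h𝔭q
        have : Ideal.Quotient.mk 𝔭 x = 0 := hx
        exact Ideal.Quotient.eq_zero_iff_mem.mp this
      rw [sup_eq_left.mpr h2] at h1
      exact hqm.ne_top h1)
    (Ideal.mem_map_of_mem _ hgT)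
    (by
      intro h
      have h1 : g T ∈ 𝔭 := Ideal.Quotient.eq_zero_iff_mem.mp h
      rw [h𝔭mem, hT] at h1
      exact Polynomial.X_ne_zero h1)
  refine ⟨φ1.comp (Ideal.Quotient.mkₐ k 𝔭), fun x hx => ?_, fun h => ?_⟩
  · rw [AlgHom.comp_apply]
    exact hφ1 _ (Ideal.mem_map_of_mem _ hx)
  · rw [AlgHom.comp_apply] at h
    have h1 : D ∈ 𝔭 := Ideal.Quotient.eq_zero_iff_mem.mp (hφ1' _ h)
    have h2 : g D' ∈ 𝔭 := by
      obtain ⟨E, hE⟩ := hDD'
      rw [hE]
      exact 𝔭.mul_mem_right E h1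
    rw [h𝔭mem] at h2
    apply hp'
    rw [← hℓ1, h2, Polynomial.eval_zero]

end MP1858fbP
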