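import Mathlib

/-!
Expansion in powers of a uniformizer: if `A = k + τ A`, then `A` maps to `k[[X]]`.
-/

namespace MP1858fbP

open PowerSeries

variable {k A : Type*} [Field k] [CommRing A] [IsDomain A] [Algebra k A]

theorem digits (τ : A) (hτ : τ ≠ 0)
    (hA : ∀ z : A, ∃ c : k, ∃ w : A, z = algebraMap k A c + τ * w)
    (hk : ∀ (c : k) (w : A), algebraMap k A c = τ * w → c = 0) :
    ∃ φ : A →ₐ[k] PowerSeries k, (∀ w, constantCoeff (φ (τ * w)) = 0) ∧
      ∀ z, φ z = 0 → ∀ m : ℕ, τ ^ m ∣ z := by
  choose res sh hrs using hA
  have huniq : ∀ (c c' : k) (w w' : A),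
      algebraMap k A c + τ * w = algebraMap k A c' + τ * w' → c = c' ∧ w = w' := by
    intro c c' w w' h
    have h1 : c - c' = 0 := by
      apply hk (c - c') (w' - w)
      rw [map_sub]
      linear_combination h
    have h2 : c = c' := by linear_combination h1
    subst h2
    refine ⟨rfl, ?_⟩
    have h3 : τ * (w - w') = 0 := by linear_combination h
    rcases mul_eq_zero.mp h3 with h4 | h4
    · exact absurd h4 hτ
    · exact sub_eq_zero.mp h4
  have hadd : ∀ z w, res (z + w) = res z + res w ∧ sh (z + w) = sh z + sh w := by
    intro z w
    apply huniq
    rw [← hrs (z + w), map_add]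
    nth_rewrite 1 [hrs z]
    nth_rewrite 1 [hrs w]
    ring
  have hmul : ∀ z w, res (z * w) = res z * res w ∧
      sh (z * w) = sh z * w + algebraMap k A (res z) * sh w := by
    intro z w
    apply huniq
    rw [← hrs (z * w), map_mul]
    have e1 := hrs z
    have e2 := hrs w
    have e3 : z * w = (algebraMap k A (res z) + τ * sh z) * w := by rw [← e1]
    rw [e3]
    have e4 : algebraMap k A (res z) * w =
        algebraMap k A (res z) * (algebraMap k A (res w) + τ * sh w) := by rw [← e2]
    linear_combination e4
  have hC : ∀ c : k, res (algebraMap k A c) = c ∧ sh (algebraMap k A c) = 0 := by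
    intro c
    apply huniq
    rw [← hrs (algebraMap k A c)]
    ring
  have hs0 : sh 0 = 0 := by
    have := (hC 0).2
    rwa [map_zero] at this
  have hr0 : res 0 = 0 := by
    have := (hC 0).1
    rwa [map_zero] at this
  have hsmul : ∀ (c : k) (w : A), sh (algebraMap k A c * w) = algebraMap k A c * sh w := by
    intro c w
    rw [(hmul _ _).2, (hC c).1, (hC c).2]
    ring
  -- coefficients
  have hit_add : ∀ (n : ℕ) (z w : A), sh^[n] (z + w) = sh^[n] z + sh^[n] w := by
    intro n
    induction n with
    | zero => intro z w; rfl
    | succ n ih =>
      intro z w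
      rw [Function.iterate_succ_apply, Function.iterate_succ_apply, Function.iterate_succ_apply,
        (hadd z w).2, ih]
  have hit_smul : ∀ (n : ℕ) (c : k) (w : A),
      sh^[n] (algebraMap k A c * w) = algebraMap k A c * sh^[n] w := by
    intro n
    induction n with
    | zero => intro c w; rfl
    | succ n ih =>
      intro c w
      rw [Function.iterate_succ_apply, Function.iterate_succ_apply, hsmul, ih]
  have hcoef : ∀ (n : ℕ) (z w : A), res (sh^[n] (z * w)) =
      ∑ p ∈ Finset.HasAntidiagonal.antidiagonal n, res (sh^[p.1] z) * res (sh^[p.2] w) := by
    intro n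
    induction n with
    | zero => intro z w; simp [(hmul z w).1]
    | succ n ih =>
      intro z w
      rw [Function.iterate_succ_apply, (hmul z w).2, hit_add, (hadd _ _).1, ih, hit_smul,
        (hmul _ _).1, (hC _).1, Finset.Nat.antidiagonal_succ]
      simp only [Finset.sum_cons, Finset.sum_map, Function.Embedding.coeFn_mk,
        Function.Embedding.prodMap, Prod.map, Function.Embedding.refl_apply,
        Function.iterate_succ_apply, Function.iterate_zero, id_eq]
      rw [add_comm]
  have hitC : ∀ (n : ℕ) (c : k), sh^[n + 1] (algebraMap k A c) = 0 := by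
    intro n c
    rw [Function.iterate_succ_apply, (hC c).2]
    induction n with
    | zero => rfl
    | succ n ih => rw [Function.iterate_succ_apply, hs0, ih]
  let φ : A →ₐ[k] PowerSeries k :=
    { toFun := fun z => PowerSeries.mk fun n => res (sh^[n] z)
      map_one' := by
        ext n
        rw [coeff_mk, coeff_one]
        cases n with
        | zero =>
          have := (hC 1).1
          rw [map_one] at this
          simpa using this
        | succ n =>
          have := hitC n 1
          rw [map_one] at this
          rw [this, hr0]
          simp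
      map_mul' := fun z w => by
        ext n
        rw [coeff_mk, coeff_mul, hcoef]
        simp only [coeff_mk]
      map_zero' := by
        ext n
        rw [coeff_mk]
        cases n with
        | zero => simpa using hr0
        | succ n =>
          have := hitC n 0
          rw [map_zero] at this
          rw [this, hr0]
          simp
      map_add' := fun z w => by
        ext n
        rw [coeff_mk, map_add, coeff_mk, coeff_mk, hit_add, (hadd _ _).1]
      commutes' := fun c => by
        ext n
        rw [coeff_mk, PowerSeries.algebraMap_apply, Algebra.algebraMap_self_apply, coeff_C]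
        cases n with
        | zero => simpa using (hC c).1
        | succ n =>
          rw [hitC n c, hr0]
          simp }
  have hφ : ∀ z n, coeff n (φ z) = res (sh^[n] z) := fun z n => by
    change coeff n (PowerSeries.mk fun n => res (sh^[n] z)) = _
    rw [coeff_mk]
  refine ⟨φ, ?_, ?_⟩
  · intro w
    rw [← coeff_zero_eq_constantCoeff_apply, hφ]
    have : res (τ * w) = 0 ∧ sh (τ * w) = w := by
      apply huniq
      rw [← hrs (τ * w), map_zero, zero_add]
    exact this.1
  · intro z hz m
    have h0 : ∀ n, res (sh^[n] z) = 0 := by
      intro n
      rw [← hφ, hz, map_zero]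
    have : ∀ m, z = τ ^ m * sh^[m] z := by
      intro m
      induction m with
      | zero => simp
      | succ m ih =>
        have e := hrs (sh^[m] z)
        rw [h0 m, map_zero, zero_add] at e
        rw [Function.iterate_succ_apply']
        calc z = τ ^ m * sh^[m] z := ih
          _ = τ ^ m * (τ * sh (sh^[m] z)) := by rw [← e]
          _ = _ := by ring
    exact ⟨_, this m⟩

end MP1858fbP
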