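import Mathlib
set_option autoImplicit false
set_option linter.unusedSectionVars false
/-!
Evaluation of formal power series in a complete normed commutative ring, for coefficients whose
images are bounded (for instance a trivially normed field) and arguments of norm less than one:
ring homomorphism, values, bounds, Lipschitz bound, naturality.
-/
noncomputable section
open scoped BigOperators
open Finset Filter Topology

namespace Pool.Agent.VFP

section monom

variable {A ι : Type*} [NormedCommRing A] [NormOneClass A] [Fintype ι]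

/-- the monomial `x ^ n` -/
def mon (x : ι → A) (n : ι →₀ ℕ) : A := ∏ i, x i ^ n i

theorem mon_zero (x : ι → A) : mon x 0 = 1 := by simp [mon]

theorem mon_add (x : ι → A) (m n : ι →₀ ℕ) : mon x (m + n) = mon x m * mon x n := by
  simp [mon, pow_add, Finset.prod_mul_distrib]

theorem mon_single (x : ι → A) (i : ι) (e : ℕ) : mon x (Finsupp.single i e) = x i ^ e := by
  classical
  unfold mon
  rw [Finset.prod_eq_single i]
  · simp
  · intro j _ hj
    rw [Finsupp.single_eq_of_ne hj, pow_zero]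
  · intro h; exact absurd (Finset.mem_univ i) h

theorem norm_mon_le (x : ι → A) (r : ι → ℝ) (hx : ∀ i, ‖x i‖ ≤ r i) (n : ι →₀ ℕ) :
    ‖mon x n‖ ≤ ∏ i, r i ^ n i := by
  unfold mon
  refine (Finset.norm_prod_le _ _).trans ?_
  refine Finset.prod_le_prod (fun i _ => norm_nonneg _) (fun i _ => ?_)
  exact (norm_pow_le _ _).trans (pow_le_pow_left₀ (norm_nonneg _) (hx i) _)

/-- the geometric majorant is summable -/
theorem summable_geo (r : ι → ℝ) (h0 : ∀ i, 0 ≤ r i) (h1 : ∀ i, r i < 1) :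
    Summable fun n : ι →₀ ℕ => ∏ i, r i ^ n i := by
  classical
  refine summable_of_sum_le (c := ∏ i, (1 - r i)⁻¹)
    (fun n => Finset.prod_nonneg fun i _ => pow_nonneg (h0 i) _) (fun s => ?_)
  obtain ⟨N, hN⟩ : ∃ N : ℕ, ∀ n ∈ s, ∀ i, n i < N := by
    refine ⟨(s.sup fun n => Finset.univ.sup fun i => n i) + 1, fun n hn i => ?_⟩
    have h2 : n i ≤ Finset.univ.sup fun i => n i :=
      Finset.le_sup (f := fun i => n i) (Finset.mem_univ i)
    have h3 : (Finset.univ.sup fun i => n i) ≤ s.sup fun n => Finset.univ.sup fun i => n i :=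
      Finset.le_sup (f := fun n : ι →₀ ℕ => Finset.univ.sup fun i => n i) hn
    omega
  have hprod : ∏ i, (∑ j ∈ Finset.range N, r i ^ j) =
      ∑ p ∈ Fintype.piFinset (fun _ : ι => Finset.range N), ∏ i, r i ^ p i := by
    rw [Finset.prod_univ_sum]
  have hle : ∑ n ∈ s, ∏ i, r i ^ n i ≤
      ∑ p ∈ Fintype.piFinset (fun _ : ι => Finset.range N), ∏ i, r i ^ p i := by
    have himg : ∑ n ∈ s, ∏ i, r i ^ n i =
        ∑ p ∈ s.image (fun n : ι →₀ ℕ => (n : ι → ℕ)), ∏ i, r i ^ p i := by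
      rw [Finset.sum_image]
      intro a _ b _ hab
      exact DFunLike.coe_injective hab
    rw [himg]
    refine Finset.sum_le_sum_of_subset_of_nonneg ?_ ?_
    · intro p hp
      obtain ⟨n, hn, rfl⟩ := Finset.mem_image.1 hp
      exact Fintype.mem_piFinset.2 fun i => Finset.mem_range.2 (hN n hn i)
    · intro p _ _
      exact Finset.prod_nonneg fun i _ => pow_nonneg (h0 i) _
  refine hle.trans ?_
  rw [← hprod]
  refine Finset.prod_le_prod (fun i _ => Finset.sum_nonneg fun j _ => pow_nonneg (h0 i) _) ?_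
  intro i _
  have hs := summable_geometric_of_lt_one (h0 i) (h1 i)
  rw [← tsum_geometric_of_lt_one (h0 i) (h1 i)]
  exact hs.sum_le_tsum _ (fun j _ => pow_nonneg (h0 i) _)

/-- difference of two monomials -/
theorem norm_mon_sub_le (x y : ι → A) {r δ : ℝ} (hr : 0 ≤ r) (hδ : 0 ≤ δ)
    (hx : ∀ i, ‖x i‖ ≤ r) (hy : ∀ i, ‖y i‖ ≤ r) (hxy : ∀ i, ‖x i - y i‖ ≤ δ) (n : ι →₀ ℕ) :
    r * ‖mon x n - mon y n‖ ≤ (∑ i, (n i : ℝ)) * r ^ (∑ i, n i) * δ := by
  classical
  have hpow : ∀ (a : ℕ) (i : ι), r * ‖x i ^ a - y i ^ a‖ ≤ (a : ℝ) * r ^ a * δ := by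
    intro a i
    induction a with
    | zero => simp
    | succ a ih =>
      have e : x i ^ (a + 1) - y i ^ (a + 1) =
          x i * (x i ^ a - y i ^ a) + (x i - y i) * y i ^ a := by ring
      have h1 : ‖x i ^ (a + 1) - y i ^ (a + 1)‖ ≤
          r * ‖x i ^ a - y i ^ a‖ + δ * r ^ a := by
        rw [e]
        refine (norm_add_le _ _).trans (add_le_add ?_ ?_)
        · exact (norm_mul_le _ _).trans
            (mul_le_mul_of_nonneg_right (hx i) (norm_nonneg _))
        · refine (norm_mul_le _ _).trans ?_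
          exact mul_le_mul (hxy i) ((norm_pow_le _ _).trans
            (pow_le_pow_left₀ (norm_nonneg _) (hy i) _)) (norm_nonneg _) hδ
      have h2 := mul_le_mul_of_nonneg_left h1 hr
      have h3 := mul_le_mul_of_nonneg_left ih hr
      push_cast
      calc r * ‖x i ^ (a + 1) - y i ^ (a + 1)‖
          ≤ r * (r * ‖x i ^ a - y i ^ a‖ + δ * r ^ a) := h2
        _ = r * (r * ‖x i ^ a - y i ^ a‖) + r * (δ * r ^ a) := by ring
        _ ≤ r * ((a : ℝ) * r ^ a * δ) + r * (δ * r ^ a) := by linarith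
        _ = ((a : ℝ) + 1) * r ^ (a + 1) * δ := by ring
  have key : ∀ s : Finset ι, r * ‖∏ i ∈ s, x i ^ n i - ∏ i ∈ s, y i ^ n i‖ ≤
      (∑ i ∈ s, (n i : ℝ)) * r ^ (∑ i ∈ s, n i) * δ := by
    intro s
    induction s using Finset.induction_on with
    | empty => simp
    | insert i s hi ih =>
      rw [Finset.prod_insert hi, Finset.prod_insert hi, Finset.sum_insert hi, Finset.sum_insert hi]
      have e : x i ^ n i * ∏ j ∈ s, x j ^ n j - y i ^ n i * ∏ j ∈ s, y j ^ n j =
          x i ^ n i * (∏ j ∈ s, x j ^ n j - ∏ j ∈ s, y j ^ n j) +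
          (x i ^ n i - y i ^ n i) * ∏ j ∈ s, y j ^ n j := by ring
      have hyp : ‖∏ j ∈ s, y j ^ n j‖ ≤ r ^ (∑ j ∈ s, n j) := by
        refine (Finset.norm_prod_le _ _).trans ?_
        rw [← Finset.prod_pow_eq_pow_sum]
        refine Finset.prod_le_prod (fun i _ => norm_nonneg _) (fun i _ => ?_)
        exact (norm_pow_le _ _).trans (pow_le_pow_left₀ (norm_nonneg _) (hy i) _)
      have hxp : ‖x i ^ n i‖ ≤ r ^ n i :=
        (norm_pow_le _ _).trans (pow_le_pow_left₀ (norm_nonneg _) (hx i) _)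
      have h1 : ‖x i ^ n i * (∏ j ∈ s, x j ^ n j - ∏ j ∈ s, y j ^ n j) +
          (x i ^ n i - y i ^ n i) * ∏ j ∈ s, y j ^ n j‖ ≤
          r ^ n i * ‖∏ j ∈ s, x j ^ n j - ∏ j ∈ s, y j ^ n j‖ +
          ‖x i ^ n i - y i ^ n i‖ * r ^ (∑ j ∈ s, n j) := by
        refine (norm_add_le _ _).trans (add_le_add ?_ ?_)
        · exact (norm_mul_le _ _).trans (mul_le_mul_of_nonneg_right hxp (norm_nonneg _))
        · exact (norm_mul_le _ _).trans (mul_le_mul_of_nonneg_left hyp (norm_nonneg _))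
      have h2 := mul_le_mul_of_nonneg_left h1 hr
      have h3 := mul_le_mul_of_nonneg_left ih (pow_nonneg hr (n i))
      have h4 := mul_le_mul_of_nonneg_right (hpow (n i) i) (pow_nonneg hr (∑ j ∈ s, n j))
      rw [e]
      calc r * _ ≤ _ := h2
        _ = r ^ n i * (r * ‖∏ j ∈ s, x j ^ n j - ∏ j ∈ s, y j ^ n j‖) +
            (r * ‖x i ^ n i - y i ^ n i‖) * r ^ (∑ j ∈ s, n j) := by ring
        _ ≤ r ^ n i * ((∑ j ∈ s, (n j : ℝ)) * r ^ (∑ j ∈ s, n j) * δ) +
            ((n i : ℝ) * r ^ n i * δ) * r ^ (∑ j ∈ s, n j) := add_le_add h3 h4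
        _ = ((n i : ℝ) + ∑ j ∈ s, (n j : ℝ)) * r ^ (n i + ∑ j ∈ s, n j) * δ := by
            rw [pow_add]; ring
  exact key Finset.univ

/-- the majorant of the differences is summable -/
theorem summable_geo' {r : ℝ} (h0 : 0 ≤ r) (h1 : r < 1) :
    Summable fun n : ι →₀ ℕ => (∑ i, (n i : ℝ)) * r ^ (∑ i, n i) := by
  obtain ⟨q, hq1, hq2⟩ := exists_between h1
  have hq0 : 0 < q := lt_of_le_of_lt h0 hq1
  have hlt : r / q < 1 := (div_lt_one hq0).2 hq1
  have ht := tendsto_self_mul_const_pow_of_lt_one (div_nonneg h0 hq0.le) hlt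
  obtain ⟨M, hM⟩ := ht.bddAbove_range
  have hM' : ∀ m : ℕ, (m : ℝ) * r ^ m ≤ M * q ^ m := by
    intro m
    have h := hM ⟨m, rfl⟩
    have hq := pow_pos hq0 m
    have : (m : ℝ) * (r / q) ^ m * q ^ m ≤ M * q ^ m := mul_le_mul_of_nonneg_right h hq.le
    have e : (m : ℝ) * (r / q) ^ m * q ^ m = (m : ℝ) * r ^ m := by
      rw [div_pow]; field_simp
    rwa [e] at this
  have hs := (summable_geo (fun _ : ι => q) (fun _ => hq0.le) (fun _ => hq2)).mul_left M
  refine Summable.of_nonneg_of_le (fun n => ?_) (fun n => ?_) hs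
  · exact mul_nonneg (Finset.sum_nonneg fun i _ => Nat.cast_nonneg _) (pow_nonneg h0 _)
  · have := hM' (∑ i, n i)
    rw [Nat.cast_sum] at this
    refine this.trans (le_of_eq ?_)
    rw [Finset.prod_pow_eq_pow_sum]

end monom

section ev

variable {k A ι : Type*} [CommRing k] [NormedCommRing A] [NormOneClass A] [CompleteSpace A]
  [Fintype ι]

/-- the terms of the evaluation -/
def term (φ : k →+* A) (x : ι → A) (f : MvPowerSeries ι k) (n : ι →₀ ℕ) : A :=
  φ (MvPowerSeries.coeff n f) * mon x n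

/-- the value of a formal power series -/
def evf (φ : k →+* A) (x : ι → A) (f : MvPowerSeries ι k) : A := ∑' n, term φ x f n

variable (φ : k →+* A) {M : ℝ} (hφ : ∀ c, ‖φ c‖ ≤ M)

include hφ in
omit [CompleteSpace A] in
theorem norm_term_le (x : ι → A) (r : ι → ℝ) (hx : ∀ i, ‖x i‖ ≤ r i) (f : MvPowerSeries ι k)
    (n : ι →₀ ℕ) : ‖term φ x f n‖ ≤ M * ∏ i, r i ^ n i := by
  have hM : 0 ≤ M := (norm_nonneg _).trans (hφ 0)
  exact (norm_mul_le _ _).trans
    (mul_le_mul (hφ _) (norm_mon_le x r hx n) (norm_nonneg _) hM)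

include hφ in
omit [CompleteSpace A] in
theorem summable_norm_term (x : ι → A) (hx : ∀ i, ‖x i‖ < 1) (f : MvPowerSeries ι k) :
    Summable fun n => ‖term φ x f n‖ :=
  Summable.of_nonneg_of_le (fun _ => norm_nonneg _)
    (fun n => norm_term_le φ hφ x (fun i => ‖x i‖) (fun _ => le_rfl) f n)
    ((summable_geo (fun i => ‖x i‖) (fun _ => norm_nonneg _) hx).mul_left M)

include hφ in
theorem hasSum_evf (x : ι → A) (hx : ∀ i, ‖x i‖ < 1) (f : MvPowerSeries ι k) :
    HasSum (term φ x f) (evf φ x f) :=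
  (summable_norm_term φ hφ x hx f).of_norm.hasSum

/-- **evaluation** as a ring homomorphism -/
def ev (x : ι → A) (hx : ∀ i, ‖x i‖ < 1) : MvPowerSeries ι k →+* A where
  toFun := evf φ x
  map_one' := by
    classical
    have : ∀ n : ι →₀ ℕ, n ≠ 0 → term φ x 1 n = 0 := by
      intro n hn
      rw [term, MvPowerSeries.coeff_one, if_neg hn, map_zero, zero_mul]
    rw [evf, tsum_eq_single 0 this, term, MvPowerSeries.coeff_one, if_pos rfl, map_one, mon_zero,
      one_mul]
  map_zero' := by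
    have : ∀ n : ι →₀ ℕ, term φ x 0 n = 0 := fun n => by
      rw [term, map_zero, map_zero, zero_mul]
    simp [evf, this]
  map_add' f g := by
    have h1 := hasSum_evf φ hφ x hx f
    have h2 := hasSum_evf φ hφ x hx g
    have e : term φ x (f + g) = fun n => term φ x f n + term φ x g n := by
      funext n
      rw [term, term, term, map_add, map_add, add_mul]
    rw [evf, e]
    exact (h1.add h2).tsum_eq
  map_mul' f g := by
    classical
    have h1 := summable_norm_term φ hφ x hx f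
    have h2 := summable_norm_term φ hφ x hx g
    rw [evf, evf, evf, h1.of_norm.tsum_mul_tsum_eq_tsum_sum_antidiagonal h2.of_norm
      (summable_mul_of_summable_norm h1 h2)]
    refine tsum_congr fun n => ?_
    rw [term, MvPowerSeries.coeff_mul, map_sum, Finset.sum_mul]
    refine Finset.sum_congr rfl fun p hp => ?_
    rw [Finset.HasAntidiagonal.mem_antidiagonal] at hp
    rw [map_mul, ← hp, mon_add, term, term]
    ring

theorem ev_apply (x : ι → A) (hx : ∀ i, ‖x i‖ < 1) (f : MvPowerSeries ι k) :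
    ev φ hφ x hx f = ∑' n, φ (MvPowerSeries.coeff n f) * ∏ i, x i ^ n i := rfl

theorem ev_C (x : ι → A) (hx : ∀ i, ‖x i‖ < 1) (c : k) :
    ev φ hφ x hx (MvPowerSeries.C c) = φ c := by
  classical
  change evf φ x (MvPowerSeries.C c) = φ c
  rw [evf, tsum_eq_single 0, term, MvPowerSeries.coeff_zero_C, mon_zero, mul_one]
  intro n hn
  rw [term, MvPowerSeries.coeff_C_of_ne_zero hn, map_zero, zero_mul]

theorem ev_monomial (x : ι → A) (hx : ∀ i, ‖x i‖ < 1) (m : ι →₀ ℕ) (c : k) :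
    ev φ hφ x hx (MvPowerSeries.monomial m c) = φ c * ∏ i, x i ^ m i := by
  classical
  change evf φ x (MvPowerSeries.monomial m c) = _
  rw [evf, tsum_eq_single m, term, MvPowerSeries.coeff_monomial_same]
  · rfl
  intro n hn
  rw [term, MvPowerSeries.coeff_monomial_ne hn, map_zero, zero_mul]

theorem ev_X (x : ι → A) (hx : ∀ i, ‖x i‖ < 1) (i : ι) :
    ev φ hφ x hx (MvPowerSeries.X i) = x i := by
  have h := ev_monomial φ hφ x hx (Finsupp.single i 1) (1 : k)
  rw [MvPowerSeries.X, h, map_one, one_mul]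
  have := mon_single x i 1
  rw [mon, pow_one] at this
  exact this

/-- the value of a polynomial -/
theorem ev_coe (x : ι → A) (hx : ∀ i, ‖x i‖ < 1) (p : MvPolynomial ι k) :
    ev φ hφ x hx (p : MvPowerSeries ι k) = MvPolynomial.eval₂ φ x p := by
  have h : (ev φ hφ x hx).comp MvPolynomial.coeToMvPowerSeries.ringHom =
      MvPolynomial.eval₂Hom φ x := by
    refine MvPolynomial.ringHom_ext (fun c => ?_) (fun i => ?_)
    · simp [ev_C]
    · simp [ev_X]
  exact congrArg (fun g : MvPolynomial ι k →+* A => g p) h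

/-- bound on the polydisc of radius `r < 1` -/
theorem norm_ev_le (x : ι → A) (hx : ∀ i, ‖x i‖ < 1) (r : ι → ℝ) (hr : ∀ i, ‖x i‖ ≤ r i)
    (hr1 : ∀ i, r i < 1) (f : MvPowerSeries ι k) :
    ‖ev φ hφ x hx f‖ ≤ M * ∑' n : ι →₀ ℕ, ∏ i, r i ^ n i := by
  have hs := (summable_geo r (fun i => (norm_nonneg _).trans (hr i)) hr1).mul_left M
  rw [← tsum_mul_left]
  exact tsum_of_norm_bounded hs.hasSum (fun n => norm_term_le φ hφ x r hr f n)

/-- Lipschitz bound on the polydisc of radius `r < 1`; the constant does not depend on `f` -/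
theorem norm_ev_sub_le (x y : ι → A) (hx : ∀ i, ‖x i‖ < 1) (hy : ∀ i, ‖y i‖ < 1) {r δ : ℝ}
    (hr0 : 0 < r) (hr1 : r < 1) (hδ : 0 ≤ δ)
    (hxr : ∀ i, ‖x i‖ ≤ r) (hyr : ∀ i, ‖y i‖ ≤ r) (hxy : ∀ i, ‖x i - y i‖ ≤ δ)
    (f : MvPowerSeries ι k) :
    ‖ev φ hφ x hx f - ev φ hφ y hy f‖ ≤
      M * (∑' n : ι →₀ ℕ, (∑ i, (n i : ℝ)) * r ^ (∑ i, n i)) / r * δ := by
  have hM : 0 ≤ M := (norm_nonneg _).trans (hφ 0)
  have h1 := hasSum_evf φ hφ x hx f
  have h2 := hasSum_evf φ hφ y hy f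
  have h3 := h1.sub h2
  have hs := (summable_geo' (ι := ι) hr0.le hr1).mul_left (M / r * δ)
  have e : M * (∑' n : ι →₀ ℕ, (∑ i, (n i : ℝ)) * r ^ (∑ i, n i)) / r * δ =
      M / r * δ * ∑' n : ι →₀ ℕ, (∑ i, (n i : ℝ)) * r ^ (∑ i, n i) := by ring
  rw [e, ← tsum_mul_left]
  change ‖evf φ x f - evf φ y f‖ ≤ _
  rw [← h3.tsum_eq]
  refine tsum_of_norm_bounded hs.hasSum (fun n => ?_)
  rw [term, term, ← mul_sub]
  refine (norm_mul_le _ _).trans ?_
  have h4 := norm_mon_sub_le x y hr0.le hδ hxr hyr hxy n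
  have h5 : ‖mon x n - mon y n‖ ≤ (∑ i, (n i : ℝ)) * r ^ (∑ i, n i) * δ / r := by
    rw [le_div_iff₀ hr0, mul_comm]
    exact h4
  refine (mul_le_mul (hφ _) h5 (norm_nonneg _) hM).trans (le_of_eq ?_)
  ring

/-- naturality -/
theorem map_ev {B : Type*} [NormedCommRing B] [NormOneClass B] [CompleteSpace B] (ψ : A →+* B)
    (hψ : Continuous ψ) {M' : ℝ} (hφ' : ∀ c, ‖(ψ.comp φ) c‖ ≤ M')
    (x : ι → A) (hx : ∀ i, ‖x i‖ < 1) (hx' : ∀ i, ‖ψ (x i)‖ < 1) (f : MvPowerSeries ι k) :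
    ψ (ev φ hφ x hx f) = ev (ψ.comp φ) hφ' (fun i => ψ (x i)) hx' f := by
  have h1 := (hasSum_evf φ hφ x hx f).map ψ hψ
  have h2 : (ψ ∘ term φ x f) = term (ψ.comp φ) (fun i => ψ (x i)) f := by
    funext n
    simp [term, mon, map_prod]
  rw [h2] at h1
  exact h1.tsum_eq.symm

end ev

end Pool.Agent.VFP
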