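import Mathlib

set_option autoImplicit false

/-!
The field of Laurent series `k((u))` as a complete nontrivially normed ultrametric field in which
every nonzero constant has norm one.
-/

noncomputable section

open scoped LaurentSeries WithZero NNReal

namespace Pool.Agent.VFP

universe u

/-- the field `k((u))` with its norm -/
def LN (k : Type u) [Field k] : Type u := LaurentSeries k

variable (k : Type u) [Field k]

instance : Field (LN k) := inferInstanceAs (Field (LaurentSeries k))

/-- the valuation as in Mathlib -/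
@[instance_reducible]
def LN.valued : Valued (LN k) ℤᵐ⁰ :=
  inferInstanceAs (Valued (LaurentSeries k) ℤᵐ⁰)

attribute [local instance] LN.valued

instance LN.rankOne : (Valued.v : Valuation (LN k) ℤᵐ⁰).RankOne where
  hom' := (WithZeroMulInt.toNNReal (e := 2) two_ne_zero).comp
    MonoidWithZeroHom.ValueGroup₀.embedding
  strictMono' := (WithZeroMulInt.toNNReal_strictMono one_lt_two).comp
    MonoidWithZeroHom.ValueGroup₀.embedding_strictMono
  exists_val_nontrivial := by
    obtain ⟨x, hx⟩ := LaurentSeries.valuation_surjective k (WithZero.exp 1)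
    refine ⟨x, ?_, ?_⟩
    · rw [show (Valued.v : Valuation (LN k) ℤᵐ⁰) x = WithZero.exp 1 from hx]
      exact WithZero.exp_ne_zero
    · rw [show (Valued.v : Valuation (LN k) ℤᵐ⁰) x = WithZero.exp 1 from hx]
      intro h
      rw [← WithZero.exp_zero] at h
      simp at h

instance LN.instNNF : NontriviallyNormedField (LN k) :=
  Valued.toNontriviallyNormedField (LN k) ℤᵐ⁰

instance LN.instComplete : CompleteSpace (LN k) :=
  LaurentSeries.instLaurentSeriesComplete (K := k)

instance LN.instUltra : IsUltrametricDist (LN k) :=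
  ⟨fun x y z ↦ by
    refine (Valuation.norm_add_le _ (x - y) (y - z)).trans_eq' ?_
    simp only [sub_add_sub_cancel]
    rfl ⟩

theorem LN.norm_def (x : LN k) :
    ‖x‖ = WithZeroMulInt.toNNReal (e := 2) two_ne_zero ((Valued.v : Valuation (LN k) ℤᵐ⁰) x) := by
  show ((Valuation.RankOne.hom (Valued.v : Valuation (LN k) ℤᵐ⁰)
    ((Valued.v : Valuation (LN k) ℤᵐ⁰).restrict x) : ℝ≥0) : ℝ) = _
  have h : MonoidWithZeroHom.ValueGroup₀.embedding ((Valued.v : Valuation (LN k) ℤᵐ⁰).restrict x) =
      (Valued.v : Valuation (LN k) ℤᵐ⁰) x := Valuation.embedding_restrict _ _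
  rw [← h]
  rfl

/-- the constants -/
def LN.con : k →+* LN k := (HahnSeries.C : k →+* HahnSeries ℤ k)

instance LN.instAlg : Algebra k (LN k) := (LN.con k).toAlgebra

theorem LN.algebraMap_eq (c : k) :
    algebraMap k (LN k) c = (HahnSeries.C c : LaurentSeries k) := rfl

/-- the variable `u` -/
def LN.u : LN k := (HahnSeries.single (1 : ℤ) (1 : k) : LaurentSeries k)

theorem LN.norm_u : ‖LN.u k‖ = 1 / 2 := by
  rw [LN.norm_def]
  have h : (Valued.v : Valuation (LN k) ℤᵐ⁰) (LN.u k) = WithZero.exp (-1 : ℤ) :=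
    LaurentSeries.valuation_single_zpow k 1
  rw [h, WithZeroMulInt.toNNReal_neg_apply _ WithZero.exp_ne_zero]
  have h2 : WithZero.unzero (WithZero.exp_ne_zero (a := (-1 : ℤ))) = Multiplicative.ofAdd (-1) :=
    WithZero.unzero_coe _
  rw [h2]
  simp

theorem LN.u_ne_zero : LN.u k ≠ 0 := by
  intro h
  have := LN.norm_u k
  rw [h, norm_zero] at this
  norm_num at this

theorem LN.norm_algebraMap {c : k} (hc : c ≠ 0) : ‖algebraMap k (LN k) c‖ = 1 := by
  have key : ∀ c : k, ‖algebraMap k (LN k) c‖ ≤ 1 := by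
    intro c
    rw [LN.norm_def]
    have h : (Valued.v : Valuation (LN k) ℤᵐ⁰) (algebraMap k (LN k) c) ≤ 1 := by
      refine (LaurentSeries.val_le_one_iff_eq_coe k _).2 ⟨PowerSeries.C c, ?_⟩
      exact PowerSeries.coe_C c
    exact_mod_cast (WithZeroMulInt.toNNReal_le_one_iff one_lt_two).2 h
  refine le_antisymm (key c) ?_
  have h2 := key c⁻¹
  have h3 : ‖algebraMap k (LN k) c‖ * ‖algebraMap k (LN k) c⁻¹‖ = 1 := by
    rw [← norm_mul, ← map_mul, mul_inv_cancel₀ hc, map_one, norm_one]
  nlinarith [norm_nonneg (algebraMap k (LN k) c), norm_nonneg (algebraMap k (LN k) c⁻¹)]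

theorem LN.norm_algebraMap_le (c : k) : ‖algebraMap k (LN k) c‖ ≤ 1 := by
  rcases eq_or_ne c 0 with rfl | h
  · simp
  · exact (LN.norm_algebraMap k h).le

end Pool.Agent.VFP
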