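import Mathlib

/-!
A valuation ring of a field algebraic of bounded degree over `k(t)`, `k` algebraically closed,
containing `k` and centred at `t = 0`, has residue field `k` and is discrete.
-/

namespace MP1858fbP

open Polynomial

section

variable {k K Γ : Type*} [Field k] [Field K] [Algebra k K] [LinearOrderedCommGroupWithZero Γ]
  (v : Valuation K Γ) (t : K)

/-- value of a polynomial in `t` with nonzero constant term -/
theorem val_aeval_one (hk : ∀ c : k, c ≠ 0 → v (algebraMap k K c) = 1) (ht : v t < 1)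
    (g : k[X]) (hg : g.coeff 0 ≠ 0) : v (aeval t g) = 1 := by
  have hle : ∀ h : k[X], v (aeval t h) ≤ 1 := by
    intro h
    rw [aeval_eq_sum_range]
    apply v.map_sum_le
    intro i _
    rw [Algebra.smul_def, map_mul, map_pow]
    by_cases hc : h.coeff i = 0
    · rw [hc, map_zero, map_zero, zero_mul]; exact zero_le_one
    · rw [hk _ hc, one_mul]
      exact pow_le_one₀ zero_le ht.le
  have e : g = C (g.coeff 0) + X * g.divX := by
    rw [add_comm]; exact (X_mul_divX_add g).symm
  rw [e, map_add, map_mul, aeval_X, aeval_C]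
  have h1 : v (t * aeval t g.divX) < 1 := by
    rw [map_mul]
    calc v t * v (aeval t g.divX) ≤ v t * 1 := mul_le_mul_right (hle _) _
      _ = v t := mul_one _
      _ < 1 := ht
  have h2 : v (algebraMap k K (g.coeff 0)) = 1 := hk _ hg
  rw [v.map_add_eq_of_lt_left]
  · exact h2
  · rw [h2]; exact h1

/-- value of a nonzero polynomial in `t` -/
theorem val_aeval (hk : ∀ c : k, c ≠ 0 → v (algebraMap k K c) = 1) (ht : v t < 1)
    (f : k[X]) (hf : f ≠ 0) : ∃ n : ℕ, v (aeval t f) = v t ^ n := by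
  obtain ⟨g, hg, hg0⟩ := Polynomial.exists_eq_pow_rootMultiplicity_mul_and_not_dvd f hf 0
  refine ⟨rootMultiplicity 0 f, ?_⟩
  have hg1 : g.coeff 0 ≠ 0 := by
    intro h
    apply hg0
    rw [map_zero, sub_zero]
    exact X_dvd_iff.mpr h
  conv_lhs => rw [hg]
  rw [map_mul, map_pow, map_zero, sub_zero, aeval_X, map_mul, map_pow,
    val_aeval_one v t hk ht g hg1, mul_one]

end

section

variable {k K Γ : Type*} [Field k] [IsAlgClosed k] [Field K] [Algebra k K]
  [LinearOrderedCommGroupWithZero Γ] (v : Valuation K Γ) (t : K)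

/-- evaluation of `P ∈ k[X][Y]` at `(t, z)` -/
noncomputable def ev2 (t z : K) (P : k[X][X]) : K := (P.map (aeval t).toRingHom).eval z

omit [IsAlgClosed k] in
theorem ev2_eq_sum (z : K) (P : k[X][X]) :
    ev2 t z P = ∑ i ∈ P.support, aeval t (P.coeff i) * z ^ i := by
  rw [ev2, eval_map, eval₂_eq_sum, Polynomial.sum]
  rfl

omit [IsAlgClosed k] in
theorem ev2_mul (z : K) (P Q : k[X][X]) : ev2 t z (P * Q) = ev2 t z P * ev2 t z Q := by
  rw [ev2, Polynomial.map_mul, eval_mul]; rfl

omit [IsAlgClosed k] in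
theorem ev2_C (z : K) (p : k[X]) : ev2 t z (C p) = aeval t p := by
  rw [ev2, Polynomial.map_C, eval_C]; rfl

/-- the residue field is `k` -/
theorem residue (hk : ∀ c : k, c ≠ 0 → v (algebraMap k K c) = 1) (ht : v t < 1) (ht0 : t ≠ 0)
    (z : K) (hz : v z ≤ 1) (P : k[X][X]) (hP : P ≠ 0) (hPz : ev2 t z P = 0) :
    ∃ c : k, v (z - algebraMap k K c) < 1 := by
  classical
  -- reduce to a primitive polynomial
  obtain ⟨Q, hQz, j, hQj⟩ : ∃ Q : k[X][X], ev2 t z Q = 0 ∧ ∃ j, (Q.coeff j).coeff 0 ≠ 0 := by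
    refine ⟨P.primPart, ?_, ?_⟩
    · have h1 : P = C P.content * P.primPart := P.eq_C_content_mul_primPart
      rw [h1, ev2_mul, ev2_C] at hPz
      rcases mul_eq_zero.mp hPz with h | h
      · exfalso
        have hc : P.content ≠ 0 := by
          rw [Ne, content_eq_zero_iff]; exact hP
        obtain ⟨n, hn⟩ := val_aeval v t hk ht _ hc
        rw [h, map_zero] at hn
        have : v t ≠ 0 := (v.ne_zero_iff).mpr ht0
        exact (pow_ne_zero n this) hn.symm
      · exact h
    · by_contra hcon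
      push Not at hcon
      have h2 : (C (X : k[X])) ∣ P.primPart := by
        rw [C_dvd_iff_dvd_coeff]
        intro i
        exact X_dvd_iff.mpr (hcon i)
      have h3 : IsUnit (X : k[X]) := P.isPrimitive_primPart X h2
      exact not_isUnit_X h3
  set Qb : k[X] := Q.map (evalRingHom 0) with hQb
  have hQb0 : Qb ≠ 0 := by
    intro h
    have : Qb.coeff j = 0 := by rw [h, coeff_zero]
    rw [hQb, coeff_map] at this
    apply hQj
    rw [coeff_zero_eq_eval_zero]
    exact this
  -- the value of the reduced polynomial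
  have hlt : v (aeval z Qb) < 1 := by
    have e : aeval z Qb = aeval z Qb - ev2 t z Q := by rw [hQz, sub_zero]
    have e2 : aeval z Qb - ev2 t z Q =
        -∑ i ∈ Q.support, t * aeval t (Q.coeff i).divX * z ^ i := by
      have e3 : aeval z Qb = ∑ i ∈ Q.support, algebraMap k K ((Q.coeff i).coeff 0) * z ^ i := by
        rw [hQb, aeval_def, eval₂_map, eval₂_eq_sum, Polynomial.sum]
        refine Finset.sum_congr rfl fun i _ => ?_
        rw [RingHom.comp_apply, coe_evalRingHom, coeff_zero_eq_eval_zero]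
      rw [e3, ev2_eq_sum, ← Finset.sum_sub_distrib, ← Finset.sum_neg_distrib]
      refine Finset.sum_congr rfl fun i _ => ?_
      have e4 : aeval t (Q.coeff i) = algebraMap k K ((Q.coeff i).coeff 0) +
          t * aeval t (Q.coeff i).divX := by
        conv_lhs => rw [← X_mul_divX_add (Q.coeff i)]
        rw [map_add, map_mul, aeval_X, aeval_C, add_comm]
      rw [e4]
      ring
    rw [e, e2, Valuation.map_neg]
    apply v.map_sum_lt one_ne_zero
    intro i _
    rw [map_mul, map_mul, map_pow]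
    have h5 : v (aeval t (Q.coeff i).divX) ≤ 1 := by
      by_cases h : (Q.coeff i).divX = 0
      · rw [h, map_zero, map_zero]; exact zero_le_one
      · obtain ⟨n, hn⟩ := val_aeval v t hk ht _ h
        rw [hn]
        exact pow_le_one₀ zero_le ht.le
    calc v t * v (aeval t (Q.coeff i).divX) * v z ^ i ≤ v t * 1 * 1 := by
          gcongr
          exact pow_le_one₀ zero_le hz
      _ = v t := by rw [mul_one, mul_one]
      _ < 1 := ht
  -- split
  have hsplit : Qb.Splits := IsAlgClosed.splits Qb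
  by_contra hcon
  push Not at hcon
  have hprod : 1 ≤ v (aeval z Qb) := by
    rw [hsplit.eq_prod_roots, map_mul, aeval_C, map_mul]
    rw [hk _ (leadingCoeff_ne_zero.mpr hQb0), one_mul]
    rw [map_multiset_prod, map_multiset_prod, Multiset.map_map, Multiset.map_map]
    apply Multiset.one_le_prod_of_one_le
    intro y hy
    rw [Multiset.mem_map] at hy
    obtain ⟨c, _, rfl⟩ := hy
    simp only [Function.comp_apply, map_sub, aeval_X, aeval_C]
    exact hcon c
  exact absurd hlt (not_lt.mpr hprod)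

omit [IsAlgClosed k] in
/-- values are bounded roots of powers of the value of `t` -/
theorem values (hk : ∀ c : k, c ≠ 0 → v (algebraMap k K c) = 1) (ht : v t < 1) (ht0 : t ≠ 0)
    (N : ℕ) (z : K) (hz : z ≠ 0) (P : k[X][X]) (hP : P ≠ 0) (hdeg : P.natDegree ≤ N)
    (hPz : ev2 t z P = 0) :
    ∃ m : ℕ, 0 < m ∧ m ≤ N ∧ ∃ a b : ℕ, v z ^ m * v t ^ a = v t ^ b := by
  classical
  have hz0 : v z ≠ 0 := (v.ne_zero_iff).mpr hz
  set f : ℕ → K := fun i => aeval t (P.coeff i) * z ^ i with hf
  have hsum : ∑ i ∈ P.support, f i = 0 := by rw [← ev2_eq_sum]; exact hPz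
  have hne : P.support.Nonempty := by
    rw [Finset.nonempty_iff_ne_empty, Ne, Polynomial.support_eq_empty]; exact hP
  have hval : ∀ i ∈ P.support, ∃ n : ℕ, v (f i) = v t ^ n * v z ^ i := by
    intro i hi
    obtain ⟨n, hn⟩ := val_aeval v t hk ht _ (mem_support_iff.mp hi)
    exact ⟨n, by rw [hf]; simp only [map_mul, map_pow]; rw [hn]⟩
  obtain ⟨j, hj, hjmax⟩ := P.support.exists_max_image (fun i => v (f i)) hne
  -- another index with the same value
  obtain ⟨i, hi, hij, hieq⟩ : ∃ i ∈ P.support, i ≠ j ∧ v (f i) = v (f j) := by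
    by_contra hcon
    push Not at hcon
    have hlt : ∀ i ∈ P.support.erase j, v (f i) < v (f j) := by
      intro i hi
      rw [Finset.mem_erase] at hi
      exact lt_of_le_of_ne (hjmax i hi.2) (hcon i hi.2 hi.1)
    have h1 : f j = -∑ i ∈ P.support.erase j, f i := by
      rw [← Finset.add_sum_erase _ _ hj] at hsum
      exact eq_neg_of_add_eq_zero_left hsum
    have h0 : v (f j) ≠ 0 := by
      obtain ⟨n, hn⟩ := hval j hj
      rw [hn]
      exact mul_ne_zero (pow_ne_zero _ ((v.ne_zero_iff).mpr ht0)) (pow_ne_zero _ hz0)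
    have h2 : v (f j) < v (f j) := by
      conv_lhs => rw [h1, Valuation.map_neg]
      exact v.map_sum_lt h0 hlt
    exact absurd h2 (lt_irrefl _)
  obtain ⟨n, hn⟩ := hval i hi
  obtain ⟨l, hl⟩ := hval j hj
  have hle : ∀ i ∈ P.support, i ≤ N := fun i hi => (le_natDegree_of_mem_supp i hi).trans hdeg
  rw [hn, hl] at hieq
  rcases lt_or_gt_of_ne hij with h | h
  · refine ⟨j - i, by omega, (Nat.sub_le _ _).trans (hle j hj), l, n, ?_⟩
    have e : v z ^ j = v z ^ (j - i) * v z ^ i := by
      rw [← pow_add]; congr 1; omega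
    rw [e] at hieq
    have h3 : v z ^ i ≠ 0 := pow_ne_zero _ hz0
    apply mul_right_cancel₀ h3
    rw [hieq, mul_comm (v z ^ (j - i)) (v t ^ l), mul_assoc]
  · refine ⟨i - j, by omega, (Nat.sub_le _ _).trans (hle i hi), n, l, ?_⟩
    have e : v z ^ i = v z ^ (i - j) * v z ^ j := by
      rw [← pow_add]; congr 1; omega
    rw [e] at hieq
    have h3 : v z ^ j ≠ 0 := pow_ne_zero _ hz0
    apply mul_right_cancel₀ h3
    rw [← hieq, mul_comm (v z ^ (i - j)) (v t ^ n), mul_assoc]

omit [IsAlgClosed k] in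
/-- the valuation is discrete -/
theorem uniformizer (hk : ∀ c : k, c ≠ 0 → v (algebraMap k K c) = 1) (ht : v t < 1) (ht0 : t ≠ 0)
    (N : ℕ) (hP : ∀ z : K, ∃ P : k[X][X], P ≠ 0 ∧ P.natDegree ≤ N ∧ ev2 t z P = 0) :
    ∃ τ : K, τ ≠ 0 ∧ v τ < 1 ∧ (∀ z, v z < 1 → v z ≤ v τ) ∧
      ∀ z, z ≠ 0 → ∃ m : ℕ, ¬ (v z ≤ v τ ^ m) := by
  classical
  have hvt0 : v t ≠ 0 := (v.ne_zero_iff).mpr ht0
  have hvtpos : 0 < v t := zero_lt_iff.mpr hvt0
  have hanti : ∀ a b : ℕ, a < b → v t ^ b < v t ^ a := fun a b h =>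
    pow_lt_pow_right_of_lt_one₀ hvtpos ht h
  have hanti' : ∀ a b : ℕ, a ≤ b → v t ^ b ≤ v t ^ a := fun a b h => by
    rcases h.eq_or_lt with rfl | h
    · exact le_rfl
    · exact (hanti a b h).le
  have hR : ∀ z : K, z ≠ 0 → v z < 1 → ∃ n : ℕ, 0 < n ∧ v z ^ N.factorial = v t ^ n := by
    intro z hz hz1
    obtain ⟨P, hP0, hdeg, hPz⟩ := hP z
    obtain ⟨m, hm, hmN, a, b, hab⟩ := values v t hk ht ht0 N z hz P hP0 hdeg hPz
    have hzm : v z ^ m < 1 := pow_lt_one₀ zero_le hz1 hm.ne'
    have hlt : a < b := by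
      by_contra hcon
      push Not at hcon
      have h1 : v t ^ a ≤ v t ^ b := hanti' _ _ hcon
      have h2 : v z ^ m * v t ^ a < v t ^ a := by
        calc v z ^ m * v t ^ a < 1 * v t ^ a :=
              mul_lt_mul_of_pos_right hzm (zero_lt_iff.mpr (pow_ne_zero _ hvt0))
          _ = v t ^ a := one_mul _
      rw [hab] at h2
      exact absurd h1 (not_le.mpr h2)
    have h3 : v z ^ m = v t ^ (b - a) := by
      have h4 : v t ^ a ≠ 0 := pow_ne_zero _ hvt0
      apply mul_right_cancel₀ h4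
      rw [hab, ← pow_add]
      congr 1
      omega
    obtain ⟨q, hq⟩ := Nat.dvd_factorial hm hmN
    refine ⟨(b - a) * q, ?_, ?_⟩
    · have hq0 : 0 < q := by
        rcases Nat.eq_zero_or_pos q with h | h
        · rw [h, mul_zero] at hq
          exact absurd hq (Nat.factorial_ne_zero N)
        · exact h
      have : 0 < b - a := by omega
      positivity
    · rw [hq, pow_mul, h3, ← pow_mul]
  have hex : ∃ n : ℕ, ∃ z : K, z ≠ 0 ∧ v z < 1 ∧ v z ^ N.factorial = v t ^ n :=
    ⟨N.factorial, t, ht0, ht, rfl⟩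
  obtain ⟨τ, hτ0, hτ1, hτ⟩ := Nat.find_spec hex
  set n₀ := Nat.find hex with hn₀
  have hmin : ∀ n z, z ≠ 0 → v z < 1 → v z ^ N.factorial = v t ^ n → n₀ ≤ n := by
    intro n z h1 h2 h3
    exact Nat.find_min' hex ⟨z, h1, h2, h3⟩
  have hN0 : N.factorial ≠ 0 := Nat.factorial_ne_zero N
  have hn₀pos : 0 < n₀ := by
    rcases Nat.eq_zero_or_pos n₀ with h | h
    · rw [h, pow_zero] at hτ
      exact absurd hτ (pow_lt_one₀ zero_le hτ1 hN0).ne
    · exact h
  refine ⟨τ, hτ0, hτ1, ?_, ?_⟩
  · intro z hz1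
    by_cases hz : z = 0
    · rw [hz, map_zero]; exact zero_le
    obtain ⟨n, hn, hzn⟩ := hR z hz hz1
    have h1 : n₀ ≤ n := hmin n z hz hz1 hzn
    have h2 : v z ^ N.factorial ≤ v τ ^ N.factorial := by
      rw [hzn, hτ]
      exact hanti' _ _ h1
    exact (pow_le_pow_iff_left₀ zero_le zero_le hN0).mp h2
  · intro z hz
    by_contra hcon
    push Not at hcon
    have hz1 : v z < 1 := lt_of_le_of_lt (by simpa using hcon 1) hτ1
    obtain ⟨n, hn, hzn⟩ := hR z hz hz1
    have h1 := hcon (n + 1)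
    have h2 : v z ^ N.factorial ≤ (v τ ^ (n + 1)) ^ N.factorial :=
      pow_le_pow_left₀ zero_le h1 _
    rw [hzn, ← pow_mul, mul_comm (n + 1), pow_mul, hτ, ← pow_mul] at h2
    have h3 : n < n₀ * (n + 1) := by nlinarith
    exact absurd h2 (not_le.mpr (hanti _ _ h3))

end

end MP1858fbP
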